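import Pool.Agent.N581.Hole.Asym

/-!
# The hole exponent of the Gaussian entire function is not governed by capacity

Thin closed half-annuli `{e^{-δ} ≤ |z| ≤ 1, Re z ≥ 0}` have logarithmic capacity at least `1/2`,
but their hole exponent is at most `64 δ³ r⁴` for large `r`.
-/

open Filter Topology MeasureTheory ProbabilityTheory
open Pool.Agent.N581.Hole

namespace Pool.Agent.Results.MP_629fb1_pr.HoleExponentNotCapacity

/-- For every `η > 0` there is a compact set `K`, homeomorphic to the closed unit square (so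
connected and simply connected) and with non-empty interior, whose logarithmic capacity `c`
is at least `1/2`, such that for every Gaussian entire function the hole exponent satisfies
`p_{H,K}(f; r) ≤ η (c r)⁴` for all large `r`. Moreover `r⁻⁴ p_{H,K}(f; r)` does not tend to
`(e²/4) c⁴`, and `p_{H,K}(f; r) / S(c r)` does not tend to `1`. -/
theorem result : ∀ η : ℝ, 0 < η → ∃ K : Set ℂ,
    IsCompact K ∧ IsConnected K ∧ (interior K).Nonempty ∧
    Nonempty ((unitInterval × unitInterval) ≃ₜ K) ∧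
    ∃ c : ℝ, IsCapacity K c ∧ 1 / 2 ≤ c ∧
      ∀ (Ω : Type*) [MeasurableSpace Ω] (P : Measure Ω) [IsProbabilityMeasure P]
        (ξ : ℕ → Ω → ℂ), IsGaussianSeq P ξ →
        (∀ᶠ r : ℝ in atTop, 0 < holeProb P ξ K r ∧ holeExp P ξ K r ≤ η * (c * r) ^ 4) ∧
        ¬ Tendsto (fun r : ℝ => holeExp P ξ K r / r ^ 4) atTop (𝓝 (Real.exp 2 / 4 * c ^ 4)) ∧
        ¬ Tendsto (fun r : ℝ => holeExp P ξ K r / SS (c * r)) atTop (𝓝 1) := by
  intro η hη
  set η' : ℝ := min η (1 / (8 * Real.exp 4)) with hη'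
  have hη'0 : 0 < η' := lt_min hη (by positivity)
  have hη'1 : η' ≤ 1 / (8 * Real.exp 4) := min_le_right _ _
  set δ : ℝ := min 1 (η' / 1024) with hδ
  have hδ0 : 0 < δ := lt_min one_pos (by positivity)
  have hδ1 : δ ≤ 1 := min_le_left _ _
  have hδ2 : δ ≤ η' / 1024 := min_le_right _ _
  have hδ3 : 64 * δ ^ 3 ≤ η' * (1 / 16) := by
    have h1 : δ ^ 3 ≤ δ := by
      have : δ * δ ≤ 1 := by nlinarith
      nlinarith
    linarith
  obtain ⟨c, hc, hc2⟩ := halfAnnulus_capacity hδ0.le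
  have hc4 : 1 / 16 ≤ c ^ 4 := by
    have := pow_le_pow_left₀ (by norm_num : (0 : ℝ) ≤ 1 / 2) hc2 4
    norm_num at this ⊢
    exact this
  refine ⟨halfAnnulus δ, halfAnnulus_isCompact δ, halfAnnulus_isConnected hδ0,
    halfAnnulus_interior hδ0, halfAnnulus_homeo hδ0, c, hc, hc2, ?_⟩
  intro Ω _ P _ ξ hξ
  have hmain : ∀ᶠ r : ℝ in atTop, 0 < holeProb P ξ (halfAnnulus δ) r ∧
      holeExp P ξ (halfAnnulus δ) r ≤ η' * (c * r) ^ 4 := by
    filter_upwards [holeExp_le hξ hδ0] with r hr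
    refine ⟨hr.1, hr.2.trans ?_⟩
    have h4 : 0 ≤ r ^ 4 := by positivity
    calc 64 * δ ^ 3 * r ^ 4 ≤ (η' * (1 / 16)) * r ^ 4 := by gcongr
      _ ≤ (η' * c ^ 4) * r ^ 4 := by gcongr
      _ = η' * (c * r) ^ 4 := by ring
  have hcpos : 0 < c := by linarith
  have he4 : 1 ≤ Real.exp 4 := Real.one_le_exp (by norm_num)
  have he2 : 1 ≤ Real.exp 2 := Real.one_le_exp (by norm_num)
  refine ⟨?_, ?_, ?_⟩
  · filter_upwards [hmain] with r hr
    refine ⟨hr.1, hr.2.trans ?_⟩
    have : 0 ≤ (c * r) ^ 4 := by positivity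
    have h1 : η' ≤ η := min_le_left _ _
    gcongr
  · intro ht
    have hlt : Real.exp 2 / 8 * c ^ 4 < Real.exp 2 / 4 * c ^ 4 := by
      have : 0 < Real.exp 2 * c ^ 4 := by positivity
      linarith
    have h1 := ht.eventually_const_lt hlt
    obtain ⟨r, hr1, hr2, hr3⟩ := (h1.and (hmain.and (eventually_gt_atTop 0))).exists
    rw [lt_div_iff₀ (by positivity)] at hr1
    have h2 : Real.exp 2 / 8 * c ^ 4 * r ^ 4 < η' * (c * r) ^ 4 := hr1.trans_le hr2.2
    have h3 : 0 < (c * r) ^ 4 := by positivity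
    have h4 : Real.exp 2 / 8 * (c * r) ^ 4 < η' * (c * r) ^ 4 := by
      calc Real.exp 2 / 8 * (c * r) ^ 4 = Real.exp 2 / 8 * c ^ 4 * r ^ 4 := by ring
        _ < _ := h2
    have h5 : Real.exp 2 / 8 < η' := lt_of_mul_lt_mul_right h4 h3.le
    have h6 : (1 : ℝ) / (8 * Real.exp 4) ≤ 1 / 8 := by
      apply div_le_div_of_nonneg_left (by norm_num) (by norm_num)
      linarith
    linarith
  · intro ht
    have h1 := ht.eventually_const_lt (by norm_num : (1 / 2 : ℝ) < 1)
    obtain ⟨r, hr1, hr2, hr3⟩ := (h1.and (hmain.and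
      (eventually_ge_atTop (Real.exp 1 * 2 / c)))).exists
    have hρ : Real.exp 1 * 2 ≤ c * r := by
      rw [div_le_iff₀ hcpos] at hr3
      linarith
    have hρ0 : 0 < c * r := lt_of_lt_of_le (by positivity) hρ
    have h2 := SS_ge hρ
    have h3 : 0 < (c * r) ^ 4 / (2 * Real.exp 4) := by positivity
    have h4 : 0 < SS (c * r) := h3.trans_le h2
    rw [lt_div_iff₀ h4] at hr1
    have h5 : (c * r) ^ 4 / (2 * Real.exp 4) * (1 / 2) < η' * (c * r) ^ 4 := by
      nlinarith [hr2.2]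
    have h6 : η' * (c * r) ^ 4 ≤ (1 / (8 * Real.exp 4)) * (c * r) ^ 4 := by gcongr
    have h7 : (c * r) ^ 4 / (2 * Real.exp 4) * (1 / 2) = 2 * ((1 / (8 * Real.exp 4)) * (c * r) ^ 4) := by
      field_simp
      ring
    have h8 : 0 < (1 / (8 * Real.exp 4)) * (c * r) ^ 4 := by positivity
    linarith

end Pool.Agent.Results.MP_629fb1_pr.HoleExponentNotCapacity
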